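import Pool.Agent.H64.XS.Stm

/-!
# Project XS, modules MDX and XSUB: assembly
-/

set_option autoImplicit false

namespace Pool.Agent.H50.XS

open MeasureTheory Set Metric Filter Topology
open scoped InnerProductSpace ENNReal NNReal ComplexConjugate
open Pool.Agent.Y283.NK (ct IsMul Repr)
open Pool.Agent.Q130.TR
open Pool.Agent.H50.SM
open Pool.Agent.H64.XS
open ContinuousLinearMap (adjoint)

theorem mdx (hTHM : S_THMJ) (hTWO : S_TWO) (hRD2 : S_RD2) (hNRM : S_NRM) : S_MDX := by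
  intro S _ μ _ φ N K u v J H _ _ _ _ V B hD hdim
  rcases hTHM S μ φ N K u v J H V B hD hdim with h | h
  · exact h
  rcases hTWO S μ φ N K u v J H V B hD with h2 | h2
  · exact h2
  refine hNRM S μ φ N K u v J H V B hD hdim
    (hRD2 S μ φ N K u v J H V B hD fun x => ?_)
  filter_upwards [h x, h2] with z hz hz2 using hz hz2

theorem xsub (hMDX : S_MDX) (hMDL : S_MDL) (hSEPN : S_SEPN) (hMIN : S_MIN) (hADJ : S_ADJ) :
    S_XSUB := by
  intro H L _ _ _ _ _ _ A K N V hN hV hNV p q hK hdim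
  by_cases hsep : TopologicalSpace.SeparableSpace H
  · obtain ⟨M, hM1, hM2, N', V', h1, h2, h3⟩ := hMIN H L A N V hN hV hNV
    obtain ⟨S, _, μ, _, φ, N₁, K₁, u, v, J, V₁, hD⟩ := hMDL H M A K N' V' h1 h2 h3 p q hK
    have h4 := hMDX S μ φ N₁ K₁ u v J H V₁ (adjoint (A + K)) hD hdim
    refine (hADJ H (A + K) 1 (by simp) (by simp)).1 ?_
    rwa [show adjoint (1 : H →L[ℂ] H) = 1 from by
      rw [← ContinuousLinearMap.star_eq_adjoint, star_one]]
  · exact hSEPN H hsep (A + K)

end Pool.Agent.H50.XS
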