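import Pool.Agent.H64.XS.Stm
import Pool.Agent.H50.SM.Thm
import Pool.Agent.H50.SM.Wgt

/-!
# Project XS, module THMJ: Thomson's scheme with constraints on `J`
-/

set_option autoImplicit false

namespace Pool.Agent.H50.XS

open MeasureTheory Set Metric Filter Topology
open scoped InnerProductSpace ENNReal NNReal ComplexConjugate
open Pool.Agent.H352R3.SA (Den)
open Pool.Agent.Y283.NK (ct IsMul Repr)
open Pool.Agent.Y271.RO (IsChain pw fd Cheap)
open Pool.Agent.Q130.TC (WT Inj)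
open Pool.Agent.Q130.TR
open Pool.Agent.H50.SM
open Pool.Agent.H64.XS
open ContinuousLinearMap (adjoint)

/-- a row as a Hilbert-Schmidt matrix -/
lemma hs_row (A : ℕ → ℕ → ℂ) (h : ∀ i, i ≠ 0 → ∀ j, A i j = 0) :
    hs A = n2 (A 0) := by
  unfold hs n2
  congr 1
  have h1 : ∑' p : ℕ × ℕ, ‖A p.1 p.2‖ ^ 2 = ∑' j : ℕ, ‖A (0, j).1 (0, j).2‖ ^ 2 := by
    refine (Function.Injective.tsum_eq (g := fun j : ℕ => ((0 : ℕ), j))
      (f := fun p : ℕ × ℕ => ‖A p.1 p.2‖ ^ 2) (fun a b hab => (Prod.mk.inj hab).2) ?_).symm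
    intro p hp
    rw [Function.mem_support] at hp
    refine ⟨p.2, ?_⟩
    by_cases h0 : p.1 = 0
    · exact Prod.ext h0.symm rfl
    · exact absurd (by rw [h p.1 h0 p.2]; simp) hp
  exact h1

section

variable {H : Type} [NormedAddCommGroup H] [InnerProductSpace ℂ H] [CompleteSpace H]

/-- powers of the adjoint on the range of `V` -/
lemma pow_adj {S : Type} [MeasurableSpace S] {μ : Measure S} {T : Lp ℂ 2 μ →L[ℂ] Lp ℂ 2 μ}
    {V : H →L[ℂ] Lp ℂ 2 μ} {B : H →L[ℂ] H} (h : ∀ x, V (adjoint B x) = adjoint T (V x)) (k : ℕ)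
    (x : H) : V (((adjoint B) ^ k) x) = ((adjoint T) ^ k) (V x) := by
  induction k generalizing x with
  | zero => simp
  | succ n ih =>
    rw [pow_succ, pow_succ, mul_apply_eq_comp, mul_apply_eq_comp, ih, h]

lemma yv_V {S : Type} [MeasurableSpace S] {μ : Measure S} {T : Lp ℂ 2 μ →L[ℂ] Lp ℂ 2 μ}
    {V : H →L[ℂ] Lp ℂ 2 μ} {B : H →L[ℂ] H} (h : ∀ x, V (adjoint B x) = adjoint T (V x))
    (p : Polynomial ℂ) (x : H) : yv T (V x) p = V (yv B x p) := by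
  unfold yv Polynomial.sum
  rw [map_sum]
  refine Finset.sum_congr rfl fun k _ => ?_
  rw [map_smul, pow_adj h]

lemma norm_V {S : Type} [MeasurableSpace S] {μ : Measure S} {V : H →L[ℂ] Lp ℂ 2 μ}
    (h : ∀ x, adjoint V (V x) = x) (x : H) : ‖V x‖ = ‖x‖ := by
  have h1 : ⟪V x, V x⟫_ℂ = ⟪x, x⟫_ℂ := by
    rw [← ContinuousLinearMap.adjoint_inner_right, h]
  have h2 : ‖V x‖ ^ 2 = ‖x‖ ^ 2 := by
    rw [inner_self_eq_norm_sq_to_K, inner_self_eq_norm_sq_to_K] at h1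
    exact_mod_cast h1
  nlinarith [norm_nonneg (V x), norm_nonneg x, sq_nonneg (‖V x‖ - ‖x‖),
    (pow_left_inj₀ (norm_nonneg (V x)) (norm_nonneg x) two_ne_zero).1 h2]

end

theorem thmj (hHSB : S_HSB) (hALG : S_ALGJ) (hAPX : S_APX) (hLNK : S_LNK2) (hWGT : S_WGTJ)
    (hHVY : S_HVY) (hEVI : S_EVI) : S_THMJ := by
  intro S _ μ _ φ N K u v J H _ _ _ V B hD hdim
  by_contra hcon
  rw [not_or] at hcon
  obtain ⟨hNI, hnot⟩ := hcon
  rw [not_forall] at hnot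
  obtain ⟨x, hnot⟩ := hnot
  have hN := hD.mul
  have hK := hD.rep
  have hu := hK.1
  have hv := hK.2.1
  set w : ℕ → Lp ℂ 2 μ := fun i => if i = 0 then V x else 0 with hw
  have hw2 : Summable fun j => ‖w j‖ ^ 2 := by
    refine summable_of_ne_finset_zero (s := {0}) fun j hj => ?_
    rw [Finset.mem_singleton] at hj
    simp [hw, hj]
  have hrow : ∀ z i, i ≠ 0 → ∀ j, Fm φ u w z i j = 0 := by
    intro z i hi j
    unfold Fm
    simp only [hw, if_neg hi]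
    exact (WGT.II_zero (u j) z).2
  have hrow0 : ∀ z j, Fm φ u w z 0 j = ct φ (V x) (u j) z := by
    intro z j
    unfold Fm
    simp [hw]
  obtain ⟨C₀, hC₀, hA⟩ := hAPX
  obtain ⟨C, c, hC, hc, hL⟩ := hLNK
  have hF := (hHSB.1 S μ φ hN.meas u v hu hv).2.1
  have hS := (hHSB.2.1 S μ φ hN.meas u hu (V x)).1
  have A1 := hA S μ φ hN.meas u v hu hv
  have A2 := hA S μ φ hN.meas u w hu hw2
  -- the point
  obtain ⟨a, ⟨hok, hbad⟩, f0, b0, s1, s2⟩ : ∃ a, (Ok φ u v J a ∧ ¬ ∀ c, Sq c →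
        (∀ i ∈ J, c i = act (Fm φ u v a) c i) → ∑' j, ct φ (V x) (u j) a * c j = 0) ∧
      HS (Fm φ u v a) ∧ Sq (fun j => ct φ (V x) (u j) a) ∧
      (∀ κ ε C : ℝ, 0 < κ → 0 < ε → 0 ≤ C →
      ∃ ρ₀ : ℝ, 0 < ρ₀ ∧ ∀ (r δ : ℝ) (h : ℂ → ℝ), 0 < r → r ≤ ρ₀ → 0 ≤ δ → Integrable h →
        (∀ z, 0 ≤ h z) → (∀ z, z ∉ ball a r → h z = 0) → WT h C δ →
        ∫ z in {z | κ ≤ hs (df (Fm φ u v z) (Fm φ u v a))}, h z ≤ ε * r + C₀ * δ) ∧
      (∀ κ ε C : ℝ, 0 < κ → 0 < ε → 0 ≤ C →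
      ∃ ρ₀ : ℝ, 0 < ρ₀ ∧ ∀ (r δ : ℝ) (h : ℂ → ℝ), 0 < r → r ≤ ρ₀ → 0 ≤ δ → Integrable h →
        (∀ z, 0 ≤ h z) → (∀ z, z ∉ ball a r → h z = 0) → WT h C δ →
        ∫ z in {z | κ ≤ hs (df (Fm φ u w z) (Fm φ u w a))}, h z ≤ ε * r + C₀ * δ) := by
    by_contra hall
    push Not at hall
    apply hnot
    filter_upwards [hF, hS, A1, A2] with z f0 s0 a1 a2
    intro hok
    by_contra hcn
    push Not at hcn
    obtain ⟨κ, ε, C', h1, h2, h3, h4⟩ := hall z ⟨hok, hcn⟩ f0 s0.1 a1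
    obtain ⟨ρ₀, h5, h6⟩ := a2 κ ε C' h1 h2 h3
    obtain ⟨r, δ, h, g1, g2, g3, g4, g5, g6, g7, g8⟩ := h4 ρ₀ h5
    exact absurd (h6 r δ h g1 g2 g3 g4 g5 g6 g7) (not_le.2 g8)
  push Not at hbad
  obtain ⟨c₀, hc₀, hc₀F, hc₀b⟩ := hbad
  obtain ⟨κ, η, hκ, hη, hpert⟩ := hALG (Fm φ u v a) J _ f0 b0 hok c₀ hc₀ hc₀F hc₀b
  have horth : ∀ k : ℕ, ∀ i, i ∉ J → ⟪((adjoint (N + K)) ^ k) (V x), u i⟫_ℂ = 0 := by
    intro k i hi
    rw [← pow_adj hD.adj, ← ContinuousLinearMap.adjoint_inner_right, hD.u0 i hi, inner_zero_right]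
  obtain ⟨W, hWm, hW01, hWup, hWlo⟩ := hWGT S μ φ N K hN u v hK J (V x) horth
  set η' : ℝ := min 1 η with hη'
  have hη'0 : 0 < η' := lt_min one_pos hη
  have hgood : ∀ᵐ z, hs (df (Fm φ u v z) (Fm φ u v a)) ≤ κ →
      hs (df (Fm φ u w z) (Fm φ u w a)) ≤ κ → η' ≤ W z := by
    filter_upwards [hF, hS, hWlo] with z f1 b1 h1 g1 g2
    have g3 : n2 (fun j => ct φ (V x) (u j) z - ct φ (V x) (u j) a) ≤ κ := by
      rw [hs_row _ (fun i hi j => by unfold df; rw [hrow z i hi, hrow a i hi, sub_zero])] at g2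
      refine le_trans (le_of_eq ?_) g2
      congr 1
    obtain ⟨d, hd1, hd2, hd3, hd4⟩ := hpert _ _ f1 b1.1 g1 g3
    refine le_trans ?_ (h1 d hd1 hd2 hd3)
    exact min_le_min le_rfl hd4
  -- the scale
  have hε : 0 < c / 16 := by positivity
  obtain ⟨ρ1, hρ1, B1⟩ := s1 κ (c / 16) C hκ hε hC.le
  obtain ⟨ρ2, hρ2, B2⟩ := s2 κ (c / 16) C hκ hε hC.le
  set r : ℝ := min ρ1 ρ2 with hr
  have hr0 : 0 < r := lt_min hρ1 hρ2
  rcases dich3 W hWm hW01 a r hr0 with h | ⟨τ, h1, h2, h3⟩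
  · have hwm : Measurable (fun z => (W z : ℂ)) := Complex.measurable_ofReal.comp hWm
    have hwi : IntegrableOn (fun z => (W z : ℂ)) (ball a r) := by
      refine Measure.integrableOn_of_bounded (M := 1) measure_ball_lt_top.ne
        hwm.aestronglyMeasurable (Eventually.of_forall fun z => ?_)
      rw [Complex.norm_real, Real.norm_eq_abs, abs_of_nonneg (hW01 z).1]
      exact (hW01 z).2
    obtain ⟨l, δ, hl, hls, hli, hδ0, hδ, hWT, hlim⟩ := hL _ a r hr0 hwm hwi h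
    have key : ∀ n, η' * (c * r) ≤ (∫ z, ‖(W z : ℂ)‖ * l n z) +
        η' * (4 * (c / 16 * r + C₀ * δ n)) := by
      intro n
      have hint : Integrable (l n) := (hl n).cont.integrable_of_hasCompactSupport (hl n).supp
      have b1 := B1 r (δ n) (l n) hr0 (min_le_left _ _) (hδ0 n) hint
            (hl n).nonneg (hls n) (hWT n)
      have b2 := B2 r (δ n) (l n) hr0 (min_le_right _ _) (hδ0 n) hint
            (hl n).nonneg (hls n) (hWT n)
      have h5 := THM.four (l n) W hint (hl n).nonneg hWm hW01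
        ![{z | κ ≤ hs (df (Fm φ u v z) (Fm φ u v a))},
          {z | κ ≤ hs (df (Fm φ u w z) (Fm φ u w a))},
          {z | κ ≤ hs (df (Fm φ u v z) (Fm φ u v a))},
          {z | κ ≤ hs (df (Fm φ u w z) (Fm φ u w a))}]
        η' hη'0 ?_ (c / 16 * r + C₀ * δ n) ?_
      · rw [hli n] at h5
        have e : ∀ z, ‖(W z : ℂ)‖ * l n z = W z * l n z := fun z => by
          rw [Complex.norm_real, Real.norm_eq_abs, abs_of_nonneg (hW01 z).1]
        simp only [e]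
        exact h5
      · filter_upwards [hgood] with z hz hz2
        have q1 := hz2 0
        have q2 := hz2 1
        simp only [Matrix.cons_val_zero, Matrix.cons_val_one, mem_ofPred_eq,
          not_le] at q1 q2
        exact hz q1.le q2.le
      · intro i
        fin_cases i
        · exact b1
        · exact b2
        · exact b1
        · exact b2
    have hlim2 : Tendsto (fun n => (∫ z, ‖(W z : ℂ)‖ * l n z) +
        η' * (4 * (c / 16 * r + C₀ * δ n))) atTop (𝓝 (0 + η' * (4 * (c / 16 * r + C₀ * 0)))) :=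
      hlim.add (((tendsto_const_nhds.add (hδ.const_mul C₀)).const_mul 4).const_mul η')
    have h6 := ge_of_tendsto' hlim2 key
    have h7 : 0 < η' * (c * r) := by positivity
    nlinarith
  · obtain ⟨C1, hC1⟩ := hHVY S μ φ N K hN u v hK (V x) W hWm hW01 hWup a τ (2 * r) h1 h2 h3
    refine hNI (hEVI H B 1 (by simp) (by simp) hdim x a C1 (by simp) fun p => ?_)
    have h8 := hC1 p
    rwa [yv_V hD.adj, norm_V hD.iso] at h8

end Pool.Agent.H50.XS
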